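import Pool.Agent.Lib.MP_c3d375_an.Neg.H15.Ubc4

/-!
# UBC: the upper bound for systems (helper15)
-/

open Complex Metric Set Filter Topology ComplexConjugate

namespace C3N.H15

theorem rpow32 {e : ℝ} (he : 0 < e) : e ^ (3 / 2 : ℝ) = √e ^ 3 := by
  rw [Real.sqrt_eq_rpow, ← Real.rpow_natCast, ← Real.rpow_mul he.le]
  norm_num

theorem rpow_g {x : ℝ} (hx : 0 < x) :
    x ^ (-(3 / 2 : ℝ)) = (x ^ (-(1 / 4 : ℝ))) ^ 6 ∧ x ^ (-(5 / 4 : ℝ)) = (x ^ (-(1 / 4 : ℝ))) ^ 5 ∧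
    x⁻¹ = (x ^ (-(1 / 4 : ℝ))) ^ 4 := by
  refine ⟨?_, ?_, ?_⟩
  · rw [← Real.rpow_natCast, ← Real.rpow_mul hx.le]; norm_num
  · rw [← Real.rpow_natCast, ← Real.rpow_mul hx.le]; norm_num
  · rw [← Real.rpow_natCast, ← Real.rpow_mul hx.le]
    norm_num
    rw [Real.rpow_neg_one]

theorem ubc_st (hP1 : P1Statement) (hCRU : CRUStatement) (hCER : CERStatement)
    (hMI : MIStatement) (hZN : ZNStatement) (hCLT : CLTStatement) (hKER : KERStatement)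
    (hBND : BNDStatement) (hPB : PBStatement) (hPA : PAStatement) (hNU : NUStatement) :
    UBCStatement := by
  obtain ⟨CG, hCG, hgain⟩ := gain_st hP1 hCRU hCLT hKER hBND hPB hPA hNU
  obtain ⟨Cm, hCm, T0, hT0, hMI⟩ := hMI
  refine ⟨6 * (CG + 1 + 4 * Cm), by positivity, ?_⟩
  intro a ha1 ha2 Y hY δ hδ
  have ha4 : 0 < 1 - a := by linarith
  have ha3 : 0 < 1 - a ^ 2 := by nlinarith
  have ha5 : 1 - a ≤ 1 - a ^ 2 := by nlinarith
  obtain ⟨hr32, hr54, hr1⟩ := rpow_g ha4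
  set g : ℝ := (1 - a) ^ (-(1 / 4 : ℝ)) with hg
  have hg0 : 0 < g := by positivity
  have hg1 : 1 ≤ g := by
    rw [hg]
    exact Real.one_le_rpow_of_pos_of_le_one_of_nonpos ha4 (by linarith) (by norm_num)
  rw [hr54] at hY
  have hY0 : 0 < Y := lt_of_lt_of_le (by positivity) hY
  obtain ⟨C', hC', e1, he1, hMI⟩ := hMI a ha1 ha2
  obtain ⟨M1, hM1, e2, he2, hCER⟩ := hCER a ha1 ha2
  obtain ⟨e3, he3, hP1⟩ := hP1 a ha1 ha2
  set M : ℝ := M1 + 11 with hM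
  have hM11 : 11 ≤ M := by rw [hM]; linarith
  obtain ⟨Cz, hCz, e4, he4, hZN⟩ := hZN M (1 / 8) δ (2 * Y) (by linarith) (by norm_num) hδ (by linarith)
  set σ : ℝ := min 1 (δ / 2 / (Cz ^ 3 / 8 + Cz)) with hσ
  have hσ0 : 0 < σ := by positivity
  have hσ1 : σ ≤ 1 := min_le_left _ _
  have hσ2 : σ * (Cz ^ 3 / 8 + Cz) ≤ δ / 2 := by
    calc σ * (Cz ^ 3 / 8 + Cz) ≤ δ / 2 / (Cz ^ 3 / 8 + Cz) * (Cz ^ 3 / 8 + Cz) := by
          gcongr
          exact min_le_right _ _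
      _ = δ / 2 := by field_simp
  obtain ⟨e5, he5, hgain⟩ := hgain a ha1 ha2 M Cz σ (by linarith) hCz hσ0
  -- a bound for `Ff`
  set F : ℝ := 6 / ((1 - a) * (1 - a ^ 2)) / 2 * ((4 / (1 - a)) * (Cz + (3 / (1 - a)) ^ 2 * Cz)) with hF
  have hF0 : 0 < F := by positivity
  set R : ℝ := 4 * Cz * C' * (1 + g ^ 3) + Cz ^ 2 * F * M / 2 +
      Cz ^ 2 * M / 2 * (Cm * g ^ 6 + C' * (1 + g ^ 3)) with hR
  have hR0 : 0 < R := by positivity
  obtain ⟨e6, he6, he61, hsm⟩ := small_e (K := min (min (1 / Cz) (δ / 2 / (4 * C' * Cz)))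
    (min (δ / R) (T0 / g ^ 3))) (by positivity)
  refine ⟨min (min (min e1 e2) (min e3 e4)) (min e5 e6), by positivity, ?_⟩
  intro e he hee H _ _ _ r hr1' hr2 S q hq x hx hw1 hw2
  have hea : e < e1 := hee.trans_le ((min_le_left _ _).trans ((min_le_left _ _).trans (min_le_left _ _)))
  have heb : e < e2 := hee.trans_le ((min_le_left _ _).trans ((min_le_left _ _).trans (min_le_right _ _)))
  have hec : e < e3 := hee.trans_le ((min_le_left _ _).trans ((min_le_right _ _).trans (min_le_left _ _)))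
  have hed : e < e4 := hee.trans_le ((min_le_left _ _).trans ((min_le_right _ _).trans (min_le_right _ _)))
  have heg : e < e5 := hee.trans_le ((min_le_right _ _).trans (min_le_left _ _))
  have heh : e < e6 := hee.trans_le ((min_le_right _ _).trans (min_le_right _ _))
  have hsm := hsm e he heh
  obtain ⟨hs1, hs2, hs3, hs4⟩ := sq_le he (heh.le.trans he61)
  set s : ℝ := √e with hs
  have hs0 : 0 < s := Real.sqrt_pos.2 he
  have hse : s ^ 2 = e := Real.sq_sqrt he.le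
  have hss : √s ≤ 1 / Cz := hsm.trans ((min_le_left _ _).trans (min_le_left _ _))
  have hsa : s ≤ δ / 2 / (4 * C' * Cz) :=
    hs1.trans (hsm.trans ((min_le_left _ _).trans (min_le_right _ _)))
  have hsb : s ≤ δ / R := hs1.trans (hsm.trans ((min_le_right _ _).trans (min_le_left _ _)))
  have hsc : s ≤ T0 / g ^ 3 := hs1.trans (hsm.trans ((min_le_right _ _).trans (min_le_right _ _)))
  obtain ⟨hρ0, hρ1, hqh, hqh0, hnu0, hnu1, hnu2, hkap, -, -, hz⟩ := hNU a ha1 ha2 r hr1' hr2 q hq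
  rw [rpow32 he, ← hs]
  by_contra hcon
  push Not at hcon
  set v := S.Φ (gg q) x with hv
  -- the vector v
  have hvx := vec_x hq hρ0 S.Φ x
  rw [← hv] at hvx
  have hww := vec_w hq hρ0 (fun z hz' => (hz z hz').2.2.2.2.2.2) S.Φ x
  rw [← hv] at hww
  have hggn : ‖S.Φ (gg q)‖ ≤ 11 * 1 :=
    hP1 e he hec H r hr1' hr2 S (gg q) 1 (fun z hz' =>
      norm_gg hq (closedBall_subset_ball hr1' hz'))
  have hvn : ‖v‖ ≤ M := by
    refine (ContinuousLinearMap.le_opNorm _ _).trans ?_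
    rw [hx, mul_one]
    linarith
  obtain ⟨Δ, hcer⟩ := hCER e he heb H r hr1' hr2 S q hq
  have hcer := cer_mono hcer (M' := M) (by rw [hM]; linarith) he.le hρ0
  have hre : (inner ℂ x (S.Φ ((rho q : ℂ) • qh q) v)).re < -(δ * e ^ (3 / 2 : ℝ)) := by
    rw [← hww, rpow32 he, ← hs]; exact hcon
  have him : |(inner ℂ x (S.Φ ((rho q : ℂ) • qh q) v)).im| ≤ 2 * Y * e := by
    rw [← hww]; exact hw2
  obtain ⟨z1, z2, z3, z4, z5, z6, z7, hnear⟩ := hZN H (Hol r) S.Φ (qh q) (jj q) Δ e (rho q) he hed hρ0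
    (by linarith) hcer x v hx hvn hvx hre him
  rw [← hs] at z1 z2 z4 z5 z7 hnear
  have hCs : Cz * √s ≤ 1 := by
    calc Cz * √s ≤ Cz * (1 / Cz) := by gcongr
      _ = 1 := by field_simp
  have hCs2 : Cz * s ≤ 1 := le_trans (by gcongr) hCs
  have hu2 : ‖S.Φ (qh q) v‖ ≤ 2 := by linarith
  have hv2 : ‖v‖ ≤ 2 := by linarith
  obtain ⟨g1, g2, g3, g4⟩ := hgain e he heg H r hr1' hr2 S q Δ v hq hcer hnear z7 z2 hu2 hv2
  set u := S.Φ (qh q) v with hu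
  set ρ := rho q with hρ
  set P := (inner ℂ u (S.Φ (qh q) u)).re with hP
  set g0 := (inner ℂ v (S.Φ (Ff q a) u)).re with hg0'
  rw [hr32] at g3
  -- identity for w
  have hid := w_eq S.Φ (qh q) ρ x v hvx
  rw [← hww, ← hu] at hid
  have hwr : (inner ℂ x (S.Φ (ff q) x)).re = ρ * (inner ℂ v u).re + ρ ^ 3 / 8 * P := by
    rw [hid, add_re, re_ofReal_mul, re_ofReal_mul, conj_re, ← hP]
    ring
  have hwi : (inner ℂ x (S.Φ (ff q) x)).im = ρ * (inner ℂ v u).im -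
      ρ ^ 3 / 8 * (inner ℂ u (S.Φ (qh q) u)).im := by
    rw [hid, add_im, im_ofReal_mul, im_ofReal_mul, conj_im]
    ring
  -- MI
  have hFf : ∀ y : H, S.Φ (Ff q a * qh q) y = S.Φ (Ff q a) (S.Φ (qh q) y) := fun y => by
    rw [map_mul]; rfl
  have hκg : 1 / (1 - a ^ 2) ≤ g ^ 4 := by
    rw [← hr1, one_div]
    exact inv_anti₀ ha4 ha5
  by_cases hcase : s ^ 2 * (1 / (1 - a ^ 2)) ≤ ρ ^ 2 / 8
  · -- case 1
    have hm := hMI e he hea H r hr1' hr2 S q hq 0 (by rw [abs_zero]; exact hT0.le) v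
    rw [hFf, ← hu, ← hg0'] at hm
    have hm2 : -(4 * C' * s ^ 4) ≤ (inner ℂ v u).re + s ^ 2 * g0 := by
      have k1 : ((1 - ((0 : ℝ) : ℂ) / 2 * I) * inner ℂ v u).re = (inner ℂ v u).re := by
        simp
      rw [k1] at hm
      have k2 : (Cm * 0 ^ 2 + C' * (e ^ 2 + e * |(0 : ℝ)|)) * ‖u‖ * ‖v‖ ≤ 4 * C' * s ^ 4 := by
        rw [abs_zero]
        calc (Cm * 0 ^ 2 + C' * (e ^ 2 + e * 0)) * ‖u‖ * ‖v‖ ≤
            (Cm * 0 ^ 2 + C' * (e ^ 2 + e * 0)) * 2 * 2 := by gcongr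
          _ = 4 * C' * s ^ 4 := by rw [← hse]; ring
      rw [hse]
      linarith
    have h6 : 4 * C' * Cz * s ≤ δ / 2 := by
      calc 4 * C' * Cz * s ≤ 4 * C' * Cz * (δ / 2 / (4 * C' * Cz)) := by gcongr
        _ = δ / 2 := by field_simp
    have := case1 (κ := 1 / (1 - a ^ 2)) hs0 hs4 hρ0 z1 hC'.le hCz hσ0 (by positivity) hm2
      (by rw [one_div, inv_mul_eq_div]; exact g2) g1 hcase hwr hσ2 h6
    linarith
  · -- case 2
    push Not at hcase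
    have hρ3 : ρ ≤ 3 * s * g ^ 2 := by
      have k1 : ρ ^ 2 ≤ (3 * s * g ^ 2) ^ 2 := by
        have k2 : s ^ 2 * (1 / (1 - a ^ 2)) ≤ s ^ 2 * g ^ 4 := by gcongr
        have k3 : 0 ≤ s ^ 2 * g ^ 4 := by positivity
        calc ρ ^ 2 ≤ 8 * (s ^ 2 * g ^ 4) := by linarith
          _ ≤ 9 * (s ^ 2 * g ^ 4) := by linarith
          _ = _ := by ring
      exact le_of_sq_le_sq k1 (by positivity)
    set wi := (inner ℂ x (S.Φ (ff q) x)).im with hwi'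
    -- the sign of T
    obtain ⟨T, hT1, hT2⟩ : ∃ T : ℝ, |T| = s * g ^ 3 ∧ T / 2 * wi = -(s * g ^ 3 / 2 * |wi|) := by
      rcases le_total 0 wi with h | h
      · exact ⟨-(s * g ^ 3), by rw [abs_neg, abs_of_pos (by positivity)], by rw [abs_of_nonneg h]; ring⟩
      · exact ⟨s * g ^ 3, by rw [abs_of_pos (by positivity)], by rw [abs_of_nonpos h]; ring⟩
    have hTT : T ^ 2 = (s * g ^ 3) ^ 2 := by rw [← sq_abs, hT1]
    have hT3 : |T| ≤ T0 := by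
      rw [hT1]
      calc s * g ^ 3 ≤ T0 / g ^ 3 * g ^ 3 := by gcongr
        _ = T0 := by field_simp
    have m1 := hMI e he hea H r hr1' hr2 S q hq T hT3 v
    have m2 := hMI e he hea H r hr1' hr2 S q hq (-T) (by rw [abs_neg]; exact hT3) u
    rw [hFf, ← hu, ← hg0', hTT, hT1] at m1
    rw [hFf, abs_neg, neg_sq, hTT, hT1] at m2
    have k1 : ((1 - (T : ℂ) / 2 * I) * inner ℂ v u).re = (inner ℂ v u).re +
        T / 2 * (inner ℂ v u).im := by
      have : ((T : ℂ) / 2) = ((T / 2 : ℝ) : ℂ) := by push_cast; ring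
      rw [this, sub_mul, one_mul, sub_re, mul_assoc, re_ofReal_mul, I_mul_re]
      ring
    have k2 : ((1 - ((-T : ℝ) : ℂ) / 2 * I) * inner ℂ u (S.Φ (qh q) u)).re =
        P - T / 2 * (inner ℂ u (S.Φ (qh q) u)).im := by
      have : (((-T : ℝ) : ℂ) / 2) = ((-T / 2 : ℝ) : ℂ) := by push_cast; ring
      rw [this, sub_mul, one_mul, sub_re, mul_assoc, re_ofReal_mul, I_mul_re, ← hP]
      ring
    rw [k1] at m1
    rw [k2] at m2
    have hQu : ‖S.Φ (qh q) u‖ ≤ 2 * M / ρ := by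
      calc ‖S.Φ (qh q) u‖ ≤ ‖S.Φ (qh q)‖ * ‖u‖ := ContinuousLinearMap.le_opNorm _ _
        _ ≤ M / ρ * 2 := by
          have := hcer.nq
          gcongr
        _ = _ := by ring
    have hFn : ‖S.Φ (Ff q a)‖ ≤ F := by
      refine g4.trans ?_
      have t1 : ‖kap q a‖ ≤ 6 / ((1 - a) * (1 - a ^ 2)) := by
        refine hkap.trans ?_
        have h1 : (nu q a).re ≤ 3 / (1 - a) := (re_le_norm _).trans hnu1
        calc 2 * a * (nu q a).re / (1 - a ^ 2) ≤ 2 * 1 * (3 / (1 - a)) / (1 - a ^ 2) := by gcongr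
          _ = _ := by field_simp; ring
      rw [hF]
      gcongr
    have hlast : (inner ℂ u (S.Φ (Ff q a) (S.Φ (qh q) u))).re ≤ F * (2 * M / ρ) * 2 := by
      refine re_inner_le _ _ _ ?_
      calc ‖u‖ * ‖S.Φ (Ff q a) (S.Φ (qh q) u)‖ ≤ 2 * (F * (2 * M / ρ)) := by
            gcongr
            exact (ContinuousLinearMap.le_opNorm _ _).trans (by gcongr)
        _ = _ := by ring
    have n1 : (Cm * (s * g ^ 3) ^ 2 + C' * (e ^ 2 + e * (s * g ^ 3))) * ‖u‖ * ‖v‖ ≤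
        4 * (Cm * (s * g ^ 3) ^ 2 + C' * (s ^ 4 + s ^ 2 * (s * g ^ 3))) := by
      calc _ ≤ (Cm * (s * g ^ 3) ^ 2 + C' * (e ^ 2 + e * (s * g ^ 3))) * 2 * 2 := by gcongr
        _ = _ := by rw [← hse]; ring
    have n2 : (Cm * (s * g ^ 3) ^ 2 + C' * (e ^ 2 + e * (s * g ^ 3))) * ‖S.Φ (qh q) u‖ * ‖u‖ ≤
        (Cm * (s * g ^ 3) ^ 2 + C' * (s ^ 4 + s ^ 2 * (s * g ^ 3))) * (2 * M / ρ) * 2 := by
      calc _ ≤ (Cm * (s * g ^ 3) ^ 2 + C' * (e ^ 2 + e * (s * g ^ 3))) * (2 * M / ρ) * 2 := by gcongr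
        _ = _ := by rw [← hse]; ring
    have key : -(ρ * (s ^ 2 * g0) + ρ * (4 * (Cm * (s * g ^ 3) ^ 2 + C' * (s ^ 4 + s ^ 2 * (s * g ^ 3))))
      + ρ ^ 3 / 8 * (s ^ 2 * (F * (2 * M / ρ) * 2))
      + ρ ^ 3 / 8 * ((Cm * (s * g ^ 3) ^ 2 + C' * (s ^ 4 + s ^ 2 * (s * g ^ 3))) * (2 * M / ρ) * 2))
      ≤ (inner ℂ x (S.Φ (ff q) x)).re - s * g ^ 3 / 2 * |wi| := by
      have p1 : -(4 * (Cm * (s * g ^ 3) ^ 2 + C' * (s ^ 4 + s ^ 2 * (s * g ^ 3)))) - s ^ 2 * g0 ≤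
          (inner ℂ v u).re + T / 2 * (inner ℂ v u).im := by
        rw [hse]
        rw [hse] at n1
        linarith
      have p2 : -((Cm * (s * g ^ 3) ^ 2 + C' * (s ^ 4 + s ^ 2 * (s * g ^ 3))) * (2 * M / ρ) * 2) -
          s ^ 2 * (F * (2 * M / ρ) * 2) ≤ P - T / 2 * (inner ℂ u (S.Φ (qh q) u)).im := by
        have : e * (inner ℂ u (S.Φ (Ff q a) (S.Φ (qh q) u))).re ≤ e * (F * (2 * M / ρ) * 2) := by
          gcongr
        rw [hse]
        rw [hse] at n2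
        linarith
      have p3 := mul_le_mul_of_nonneg_left p1 hρ0.le
      have p4 := mul_le_mul_of_nonneg_left p2 (show 0 ≤ ρ ^ 3 / 8 by positivity)
      have p5 : (inner ℂ x (S.Φ (ff q) x)).re - s * g ^ 3 / 2 * |wi| =
          ρ * ((inner ℂ v u).re + T / 2 * (inner ℂ v u).im) +
          ρ ^ 3 / 8 * (P - T / 2 * (inner ℂ u (S.Φ (qh q) u)).im) := by
        rw [sub_eq_add_neg, ← hT2, hwr, hwi]
        ring
      rw [p5]
      linarith
    have hRs : R * s ≤ δ := by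
      calc R * s ≤ R * (δ / R) := by gcongr
        _ = δ := by field_simp
    have hw1' : Y * s ^ 2 ≤ |wi| := by rw [hse]; exact hw1
    have := case2 hs0 hs4 hρ0 hρ3 z1 hg1 hCG.le hCm.le hC'.le hF0.le (by linarith) hCz hσ0 hσ1 g3 hY
      hw1' key hRs
    linarith

end C3N.H15
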