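import Pool.Agent.Lib.MP_c3d375_an.Neg.Iface

/-!
# UBC, part 1: monotonicity of the certificates, the vector `v`, the identity for `w` (helper15)
-/

open Complex Metric Set Filter Topology ComplexConjugate

namespace C3N.H15

section mono

variable {H : Type} [NormedAddCommGroup H] [InnerProductSpace ℂ H] [CompleteSpace H]
  {𝓐 : Type} [CommRing 𝓐] [Algebra ℂ 𝓐]

theorem cer_mono {Φ : 𝓐 →ₐ[ℂ] (H →L[ℂ] H)} {q j Δ : 𝓐} {M M' e ρ : ℝ}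
    (h : Cer Φ q j Δ M e ρ) (hM : M ≤ M') (he : 0 ≤ e) (hρ : 0 < ρ) : Cer Φ q j Δ M' e ρ where
  hj := h.hj
  nj := h.nj.trans hM
  nK := h.nK.trans hM
  nJ := h.nJ.trans hM
  nq := h.nq.trans (by gcongr)
  nΔ := h.nΔ.trans (by gcongr)
  acc := h.acc
  ber := fun x => le_trans (neg_le_neg (by gcongr)) (h.ber x)
  pj := fun x => le_trans (neg_le_neg (by gcongr)) (h.pj x)
  pJ := fun x => le_trans (neg_le_neg (by gcongr)) (h.pJ x)

theorem near_mono {Φ : 𝓐 →ₐ[ℂ] (H →L[ℂ] H)} {q j Δ : 𝓐} {M M' δ δ' : ℝ} {v : H}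
    (h : Near Φ q j Δ M δ v) (hM : M ≤ M') (hδ : δ ≤ δ') : Near Φ q j Δ M' δ' v where
  hj := h.hj
  nj := h.nj.trans hM
  nK := h.nK.trans hM
  nJ := h.nJ.trans hM
  nΔ := h.nΔ.trans hδ
  acc := h.acc
  pj := fun x => le_trans (neg_le_neg (by gcongr)) (h.pj x)
  pJ := fun x => le_trans (neg_le_neg (by gcongr)) (h.pJ x)
  nv := h.nv.trans hM
  nu := h.nu.trans hM
  ny := h.ny.trans hM
  form := h.form.trans hδ
  xi := h.xi.trans hδ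
  k1 := h.k1.trans hδ
  k2 := h.k2.trans hδ

theorem kera_mono {Φ : 𝓐 →ₐ[ℂ] (H →L[ℂ] H)} {q qi j B L : 𝓐} {a : ℝ} {ν b : ℂ} {M M' δ δ' : ℝ}
    (h : KerA Φ q qi j B L a ν b M δ) (hM0 : 0 ≤ M) (hM : M ≤ M') (hδ : δ ≤ δ') :
    KerA Φ q qi j B L a ν b M' δ' where
  hqi := h.hqi
  nB := h.nB.trans hM
  nk := h.nk.trans hM
  nl := h.nl.trans hM
  hb := h.hb
  hν := h.hν.trans hM
  hν' := h.hν'.trans hM
  hν0 := h.hν0
  ha := h.ha
  ha' := h.ha'.trans (by gcongr)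
  posx := fun n => (h.posx n).trans (by gcongr)
  posu := fun n => (h.posu n).trans (by gcongr)
  kx := fun n n' => (h.kx n n').trans (by
    have hM0' : 0 ≤ M' := hM0.trans hM
    gcongr)
  ku := fun n n' => (h.ku n n').trans (by
    have hM0' : 0 ≤ M' := hM0.trans hM
    gcongr)

end mono

section vec

variable {r : ℝ}

theorem qh_ne {q : Hol r} (hq : QH q) (hρ : 0 < rho q)
    (hqh : ∀ z : ℂ, fn (qh q) z = ((rho q)⁻¹ : ℂ) * fn q z) {z : ℂ} (hz : z ∈ ball (0 : ℂ) r) :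
    fn (qh q) z ≠ 0 := by
  rw [hqh z]
  refine mul_ne_zero (inv_ne_zero (by exact_mod_cast hρ.ne')) ?_
  intro h
  have := hq.re_pos z hz
  rw [h] at this
  simp at this

theorem q_eq {q : Hol r} (hρ : 0 < rho q) : q = ((rho q : ℝ) : ℂ) • qh q := by
  unfold qh
  rw [smul_smul, mul_inv_cancel₀ (by exact_mod_cast hρ.ne'), one_smul]

/-- the inverse of `1 + q²/8` -/
noncomputable def gg (q : Hol r) : Hol r := hol r (fun z => (1 + (fn q z) ^ 2 / 8)⁻¹)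

theorem den_re {q : Hol r} (hq : QH q) {z : ℂ} (hz : z ∈ ball (0 : ℂ) r) :
    1 ≤ (1 + (fn q z) ^ 2 / 8).re := by
  have := hq.re_sq_pos z hz
  have h2 : (1 + (fn q z) ^ 2 / 8).re = 1 + ((fn q z) ^ 2).re / 8 := by
    rw [add_re, one_re]
    congr 1
    have : (fn q z) ^ 2 / 8 = (fn q z) ^ 2 / ((8 : ℝ) : ℂ) := by norm_num
    rw [this, div_ofReal_re]
  rw [h2]
  linarith

theorem den_ne {q : Hol r} (hq : QH q) {z : ℂ} (hz : z ∈ ball (0 : ℂ) r) :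
    (1 + (fn q z) ^ 2 / 8) ≠ 0 := by
  intro h
  have := den_re hq hz
  rw [h] at this
  simp at this
  linarith

theorem fn_gg {q : Hol r} (hq : QH q) {z : ℂ} (hz : z ∈ ball (0 : ℂ) r) :
    fn (gg q) z = (1 + (fn q z) ^ 2 / 8)⁻¹ := by
  unfold gg
  rw [fn_hol _ hz]
  refine DifferentiableOn.inv ?_ fun w hw => den_ne hq hw
  exact (differentiableOn_const _).add (((fn_differentiableOn q).pow 2).div_const 8)

theorem norm_gg {q : Hol r} (hq : QH q) {z : ℂ} (hz : z ∈ ball (0 : ℂ) r) : ‖fn (gg q) z‖ ≤ 1 := by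
  rw [fn_gg hq hz, norm_inv]
  apply inv_le_one_of_one_le₀
  exact (den_re hq hz).trans ((re_le_norm _))

theorem gg_mul {q : Hol r} (hq : QH q) :
    (1 + ((1 / 8 : ℝ) : ℂ) • q ^ 2) * gg q = 1 := by
  apply hol_ext
  intro z hz
  rw [fn_mul, fn_add, fn_smul, fn_pow _ _ hz, fn_one hz, fn_gg hq hz]
  have := den_ne hq hz
  have h8 : (1 + (((1 / 8 : ℝ) : ℂ)) * fn q z ^ 2) = 1 + (fn q z) ^ 2 / 8 := by
    push_cast; ring
  rw [h8, mul_inv_cancel₀ this]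

theorem ff_eq {q : Hol r} (hq : QH q)
    (hff : ∀ z ∈ ball (0 : ℂ) r, fn (ff q) z = fn q z / (1 + (fn q z) ^ 2 / 8)) :
    ff q = q * gg q := by
  apply hol_ext
  intro z hz
  rw [hff z hz, fn_mul, fn_gg hq hz, div_eq_mul_inv]

theorem qi_mul {q : Hol r} (hq : QH q) (hρ : 0 < rho q)
    (hqh : ∀ z : ℂ, fn (qh q) z = ((rho q)⁻¹ : ℂ) * fn q z)
    (hqi : ∀ z ∈ ball (0 : ℂ) r, fn (qi q) z = (fn (qh q) z)⁻¹) :
    qi q * qh q = 1 := by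
  apply hol_ext
  intro z hz
  rw [fn_mul, hqi z hz, fn_one hz, inv_mul_cancel₀ (qh_ne hq hρ hqh hz)]

variable {H : Type} [NormedAddCommGroup H] [InnerProductSpace ℂ H] [CompleteSpace H]

theorem vec_x {q : Hol r} (hq : QH q) (hρ : 0 < rho q) (Φ : Hol r →ₐ[ℂ] (H →L[ℂ] H)) (x : H) :
    x = Φ (gg q) x + ((1 / 8 * rho q ^ 2 : ℝ) : ℂ) • Φ (qh q ^ 2) (Φ (gg q) x) := by
  have h1 := congrArg (fun f => Φ f x) (gg_mul hq)
  simp only [map_mul, map_one] at h1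
  have h2 : (1 + ((1 / 8 : ℝ) : ℂ) • q ^ 2 : Hol r)
      = 1 + ((1 / 8 * rho q ^ 2 : ℝ) : ℂ) • qh q ^ 2 := by
    congr 1
    conv_lhs => rw [q_eq hρ]
    rw [smul_pow, smul_smul]
    congr 1
    push_cast
    ring
  rw [h2] at h1
  conv_lhs => rw [show x = (1 : H →L[ℂ] H) x from rfl, ← h1]
  simp

theorem vec_w {q : Hol r} (hq : QH q) (hρ : 0 < rho q)
    (hff : ∀ z ∈ ball (0 : ℂ) r, fn (ff q) z = fn q z / (1 + (fn q z) ^ 2 / 8))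
    (Φ : Hol r →ₐ[ℂ] (H →L[ℂ] H)) (x : H) :
    inner ℂ x (Φ (ff q) x) = inner ℂ x (Φ (((rho q : ℝ) : ℂ) • qh q) (Φ (gg q) x)) := by
  rw [ff_eq hq hff, ← q_eq hρ, map_mul]
  rfl

/-- the identity of section 2 -/
theorem w_eq (Φ : Hol r →ₐ[ℂ] (H →L[ℂ] H)) (Q : Hol r) (ρ : ℝ) (x v : H)
    (hx : x = v + ((1 / 8 * ρ ^ 2 : ℝ) : ℂ) • Φ (Q ^ 2) v) :
    inner ℂ x (Φ ((ρ : ℂ) • Q) v) = ρ * inner ℂ v (Φ Q v) +
      (1 / 8 * ρ ^ 3 : ℝ) * conj (inner ℂ (Φ Q v) (Φ Q (Φ Q v))) := by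
  have h1 : Φ ((ρ : ℂ) • Q) v = (ρ : ℂ) • Φ Q v := by
    rw [map_smul]; rfl
  have h2 : Φ (Q ^ 2) v = Φ Q (Φ Q v) := by
    rw [pow_two, map_mul]; rfl
  rw [h1, inner_smul_right]
  conv_lhs => rw [hx]
  rw [inner_add_left, inner_smul_left, h2, inner_conj_symm, conj_ofReal]
  push_cast
  ring

end vec

end C3N.H15
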