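import Pool.Agent.Lib.MP_c3d375_an.Neg.H15.Ubc1
import Pool.Agent.Lib.MP_c3d375_an.Neg.H26.Mono

/-!
# UBC, part 2: the bounds for the first order gain (helper15)
-/

open Complex Metric Set Filter Topology ComplexConjugate

namespace C3N.H15

theorem small_e {K : ℝ} (hK : 0 < K) : ∃ e0 : ℝ, 0 < e0 ∧ e0 ≤ 1 ∧ ∀ e : ℝ, 0 < e → e < e0 →
    √√e ≤ K := by
  refine ⟨min 1 (K ^ 4), by positivity, min_le_left _ _, fun e he he0 => ?_⟩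
  have h1 : e ≤ K ^ 4 := (he0.trans_le (min_le_right _ _)).le
  have h2 : √e ≤ K ^ 2 := by
    rw [Real.sqrt_le_left (by positivity)]
    calc e ≤ K ^ 4 := h1
      _ = (K ^ 2) ^ 2 := by ring
  rw [Real.sqrt_le_left hK.le]
  exact h2

theorem sq_le {e : ℝ} (he : 0 < e) (he1 : e ≤ 1) : √e ≤ √√e ∧ e ≤ √e ∧ √√e ≤ 1 ∧ √e ≤ 1 := by
  have h1 : √e ≤ 1 := Real.sqrt_le_one.2 he1
  have h0 : 0 ≤ √e := Real.sqrt_nonneg _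
  have h2 : e ≤ √e := by
    calc e = √e * √e := (Real.mul_self_sqrt he.le).symm
      _ ≤ 1 * √e := by gcongr
      _ = √e := one_mul _
  refine ⟨?_, h2, Real.sqrt_le_one.2 h1, h1⟩
  exact Real.sqrt_le_sqrt h2

variable {H : Type} [NormedAddCommGroup H] [InnerProductSpace ℂ H] [CompleteSpace H]

theorem re_inner_ge (x y : H) (c : ℝ) (h : ‖x‖ * ‖y‖ ≤ c) : -c ≤ (inner ℂ x y).re := by
  have h1 := abs_re_le_norm (inner ℂ x y)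
  have h2 := norm_inner_le_norm (𝕜 := ℂ) x y
  have h3 := (abs_le.1 h1).1
  linarith

theorem re_inner_le (x y : H) (c : ℝ) (h : ‖x‖ * ‖y‖ ≤ c) : (inner ℂ x y).re ≤ c := by
  have h1 := abs_re_le_norm (inner ℂ x y)
  have h2 := norm_inner_le_norm (𝕜 := ℂ) x y
  have h3 := (abs_le.1 h1).2
  linarith

/-- `P ≥ - small` -/
theorem P_ge {r : ℝ} {Φ : Hol r →ₐ[ℂ] (H →L[ℂ] H)} {q j Δ : Hol r} {M e ρ Cz : ℝ} {u : H}
    (hM : 0 ≤ M) (hCz : 0 ≤ Cz)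
    (h : Cer Φ q j Δ M e ρ) (he : 0 < e) (hρ : 0 < ρ) (hρe : √e ≤ Cz * ρ) (hu : ‖u‖ ≤ 2) :
    -(4 * M ^ 2 * Cz * √e) ≤ (inner ℂ u (Φ q u)).re := by
  have h1 := h.acc u
  have e1 : Φ (q * (1 + Δ)) u = Φ q u + Φ q (Φ Δ u) := by
    rw [mul_add, mul_one, map_add, map_mul]; rfl
  rw [e1, inner_add_right, add_re] at h1
  have hs : √e * √e = e := Real.mul_self_sqrt he.le
  have h2 : e / ρ ≤ Cz * √e := by
    rw [div_le_iff₀ hρ]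
    have := Real.sqrt_nonneg e
    nlinarith
  have h3 : ‖Φ q (Φ Δ u)‖ ≤ M / ρ * (M * e * 2) := by
    refine (ContinuousLinearMap.le_opNorm _ _).trans ?_
    refine mul_le_mul h.nq ((ContinuousLinearMap.le_opNorm _ _).trans ?_) (norm_nonneg _)
      (by positivity)
    exact mul_le_mul h.nΔ hu (norm_nonneg _) (by positivity)
  have h4 : ‖u‖ * ‖Φ q (Φ Δ u)‖ ≤ 4 * M ^ 2 * Cz * √e := by
    calc ‖u‖ * ‖Φ q (Φ Δ u)‖ ≤ 2 * (M / ρ * (M * e * 2)) := by gcongr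
      _ = 4 * M ^ 2 * (e / ρ) := by ring
      _ ≤ 4 * M ^ 2 * (Cz * √e) := by gcongr
      _ = _ := by ring
  have h5 := re_inner_le _ _ _ h4
  linarith

/-- the bounds for the gain -/
def GainStatement : Prop :=
  ∃ CB : ℝ, 0 < CB ∧ ∀ a : ℝ, 1 / 2 ≤ a → a < 1 → ∀ M Cz σ : ℝ, 1 ≤ M → 1 ≤ Cz → 0 < σ →
    ∃ e0 : ℝ, 0 < e0 ∧ ∀ e : ℝ, 0 < e → e < e0 →
    ∀ (H : Type) [NormedAddCommGroup H] [InnerProductSpace ℂ H] [CompleteSpace H] (r : ℝ),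
      1 < r → r ≤ (1 + a) / (2 * a) → ∀ (S : Sys a e r H) (q Δ : Hol r) (v : H), QH q →
      Cer S.Φ (qh q) (jj q) Δ M e (rho q) →
      Near S.Φ (qh q) (jj q) Δ Cz (Cz * √√e) v → ‖inner ℂ v (S.Φ (qh q) v)‖ ≤ Cz * √e →
      √e ≤ Cz * rho q → ‖S.Φ (qh q) v‖ ≤ 2 → ‖v‖ ≤ 2 →
      -σ ≤ (inner ℂ (S.Φ (qh q) v) (S.Φ (qh q) (S.Φ (qh q) v))).re ∧
      (inner ℂ v (S.Φ (Ff q a) (S.Φ (qh q) v))).re ≤
        (inner ℂ (S.Φ (qh q) v) (S.Φ (qh q) (S.Φ (qh q) v))).re / (1 - a ^ 2) + σ ∧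
      (inner ℂ v (S.Φ (Ff q a) (S.Φ (qh q) v))).re ≤ CB * (1 - a) ^ (-(3 / 2 : ℝ)) + σ ∧
      ‖S.Φ (Ff q a)‖ ≤ ‖kap q a‖ / 2 * ((4 / (1 - a)) * (Cz + ‖(nu q a)⁻¹‖ ^ 2 * Cz))

theorem norm_Ff {r a e : ℝ} (S : Sys a e r H) (q : Hol r) {C : ℝ} (ha : a < 1)
    (hj : ‖S.Φ (jj q)‖ ≤ C) (hJ : ‖S.Φ (qh q ^ 2 * jj q)‖ ≤ C) :
    ‖S.Φ (Ff q a)‖ ≤ ‖kap q a‖ / 2 * ((4 / (1 - a)) * (C + ‖(nu q a)⁻¹‖ ^ 2 * C)) := by
  have ha' : 0 < 1 - a := by linarith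
  unfold Ff
  rw [map_smul, map_mul, map_add, map_smul, norm_smul, norm_div, Complex.norm_two]
  gcongr
  refine (norm_mul_le _ _).trans ?_
  refine mul_le_mul S.nB ?_ (norm_nonneg _) (by positivity)
  refine (norm_add_le _ _).trans ?_
  rw [norm_smul, norm_pow]
  gcongr

end C3N.H15
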