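import Pool.Agent.Lib.MP_c3d375_an.Neg.H15.Ubc2

/-!
# UBC, part 3: proof of the bounds for the gain (helper15)
-/

open Complex Metric Set Filter Topology ComplexConjugate

namespace C3N.H15

/-- the upper bound of `Re ⟨ψ u, u⟩` by `P / (1-a²)` -/
theorem psi_A (hPA : PAStatement) (hCRU : CRUStatement) (hP1 : P1Statement) (hPB : PBStatement)
    (hNU : NUStatement) :
    ∀ a : ℝ, 1 / 2 ≤ a → a < 1 → ∀ M Cz σ : ℝ, 1 ≤ M → 1 ≤ Cz → 0 < σ →
    ∃ e0 : ℝ, 0 < e0 ∧ ∀ e : ℝ, 0 < e → e < e0 →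
    ∀ (H : Type) [NormedAddCommGroup H] [InnerProductSpace ℂ H] [CompleteSpace H] (r : ℝ),
      1 < r → r ≤ (1 + a) / (2 * a) → ∀ (S : Sys a e r H) (q Δ : Hol r) (v : H), QH q →
      Cer S.Φ (qh q) (jj q) Δ M e (rho q) →
      ‖inner ℂ v (S.Φ (qh q) v)‖ ≤ Cz * √e →
      √e ≤ Cz * rho q → ‖S.Φ (qh q) v‖ ≤ 2 → ‖v‖ ≤ 2 →
      (inner ℂ (S.Φ (qh q) v) (S.Φ (psi q a) (S.Φ (qh q) v))).re ≤
        (inner ℂ (S.Φ (qh q) v) (S.Φ (qh q) (S.Φ (qh q) v))).re / (1 - a ^ 2) + σ := by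
  intro a ha1 ha2 M Cz σ hM hCz hσ
  obtain ⟨l, hl, hPA⟩ := hPA a ha1 ha2
  obtain ⟨C, hC, e1, he1, hCRU⟩ := hCRU a ha1 ha2
  obtain ⟨e2, he2, hP1⟩ := hP1 a ha1 ha2
  obtain ⟨CB, hCB, hPB⟩ := hPB
  have ha3 : 0 < 1 - a ^ 2 := by nlinarith
  have ha4 : 0 < 1 - a := by linarith
  set Bd : ℝ := CB * (1 - a) ^ (-(3 / 2 : ℝ)) with hBd
  have hBd0 : 0 < Bd := by positivity
  set D : ℝ := l * Cz + 2 * C * (M * Cz * 2 / (1 - a ^ 2) + 2 * l + 22 * Bd) with hD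
  have hD0 : 0 < D := by positivity
  obtain ⟨e3, he3, he31, hsm⟩ := small_e (K := σ / D) (by positivity)
  refine ⟨min e1 (min e2 e3), by positivity, ?_⟩
  intro e he hee H _ _ _ r hr1 hr2 S q Δ v hq hcer ht hρ hu hv
  have hea : e < e1 := hee.trans_le (min_le_left _ _)
  have heb : e < e2 := hee.trans_le ((min_le_right _ _).trans (min_le_left _ _))
  have hec : e < e3 := hee.trans_le ((min_le_right _ _).trans (min_le_right _ _))
  have hsm := hsm e he hec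
  obtain ⟨hs1, hs2, hs3, hs4⟩ := sq_le he (hec.le.trans he31)
  obtain ⟨hρ0, -, hqh, -, -, -, -, -, -, -, hz⟩ := hNU a ha1 ha2 r hr1 hr2 q hq
  set u := S.Φ (qh q) v with hu'
  obtain ⟨Δ', hΔ1, hΔ2⟩ := hCRU e he hea H r hr1 hr2 S _ (hPA r hr1 hr2 q hq)
  have h0 := hΔ2 u
  set p : Hol r := ((1 / (1 - a ^ 2) : ℝ) : ℂ) • qh q + ((l : ℝ) : ℂ) • qi q - psi q a with hp
  -- the vector p u
  have hqi : S.Φ (qi q) u = v := by
    have h := qi_mul hq hρ0 hqh (fun z hz' => (hz z hz').1)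
    have h2 : S.Φ (qi q) u = S.Φ (qi q * qh q) v := by rw [map_mul]; rfl
    rw [h2, h, map_one]; rfl
  have hpu : S.Φ p u = ((1 / (1 - a ^ 2) : ℝ) : ℂ) • S.Φ (qh q) u + (l : ℂ) • v -
      S.Φ (psi q a) u := by
    rw [hp, map_sub, map_add, map_smul, map_smul]
    simp only [sub_apply, add_apply, smul_apply]
    rw [hqi]
  have hpsi : ‖S.Φ (psi q a)‖ ≤ 11 * Bd :=
    hP1 e he heb H r hr1 hr2 S (psi q a) Bd (fun z hz' => hPB a ha1 ha2 r hr1 hr2 q hq z hz')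
  have e1 : S.Φ (p * (1 + Δ')) u = S.Φ p u + S.Φ Δ' (S.Φ p u) := by
    rw [mul_add, mul_one, map_add, mul_comm p Δ', map_mul]; rfl
  rw [e1, inner_add_right, add_re] at h0
  have hq1 : ‖S.Φ (qh q) u‖ ≤ M / rho q * 2 := by
    refine (ContinuousLinearMap.le_opNorm _ _).trans ?_
    have := hcer.nq
    gcongr
  have hs : √e * √e = e := Real.mul_self_sqrt he.le
  have hs0 : 0 ≤ √e := Real.sqrt_nonneg _
  have hs00 : 0 ≤ √√e := Real.sqrt_nonneg _
  have heρ : e / rho q ≤ Cz * √e := by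
    rw [div_le_iff₀ hρ0]
    nlinarith
  have hpn : ‖S.Φ p u‖ ≤ 1 / (1 - a ^ 2) * (M / rho q * 2) + l * 2 + 11 * Bd * 2 := by
    rw [hpu]
    refine (norm_sub_le _ _).trans (add_le_add ((norm_add_le _ _).trans (add_le_add ?_ ?_)) ?_)
    · rw [norm_smul, Complex.norm_real, Real.norm_of_nonneg (by positivity)]
      gcongr
    · rw [norm_smul, Complex.norm_real, Real.norm_of_nonneg hl.le]
      gcongr
    · refine (ContinuousLinearMap.le_opNorm _ _).trans ?_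
      gcongr
  have herr : ‖u‖ * ‖S.Φ Δ' (S.Φ p u)‖ ≤
      2 * C * (M * Cz * 2 / (1 - a ^ 2) + 2 * l + 22 * Bd) * √√e := by
    have h1 : ‖S.Φ Δ' (S.Φ p u)‖ ≤ C * e *
        (1 / (1 - a ^ 2) * (M / rho q * 2) + l * 2 + 11 * Bd * 2) :=
      (ContinuousLinearMap.le_opNorm _ _).trans (mul_le_mul hΔ1 hpn (norm_nonneg _) (by positivity))
    calc ‖u‖ * ‖S.Φ Δ' (S.Φ p u)‖ ≤ 2 * (C * e *
        (1 / (1 - a ^ 2) * (M / rho q * 2) + l * 2 + 11 * Bd * 2)) := by gcongr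
      _ = 2 * C * (M * (e / rho q) * 2 / (1 - a ^ 2) + 2 * l * e + 22 * Bd * e) := by ring
      _ ≤ 2 * C * (M * (Cz * √√e) * 2 / (1 - a ^ 2) + 2 * l * √√e + 22 * Bd * √√e) := by
          have h3 : e / rho q ≤ Cz * √√e := heρ.trans (by gcongr)
          have h4 : e ≤ √√e := hs2.trans hs1
          gcongr
      _ = _ := by ring
  have h6 := re_inner_le _ _ _ herr
  rw [hpu] at h6
  rw [hpu, inner_sub_right, inner_add_right, inner_smul_right, inner_smul_right, sub_re, add_re,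
    re_ofReal_mul, re_ofReal_mul] at h0
  have h7 : (inner ℂ u v).re ≤ Cz * √√e := by
    have h8 : (inner ℂ u v).re = (inner ℂ v u).re := by rw [← inner_conj_symm, conj_re]
    rw [h8]
    calc (inner ℂ v u).re ≤ ‖inner ℂ v u‖ := re_le_norm _
      _ ≤ Cz * √e := ht
      _ ≤ Cz * √√e := by gcongr
  have h9 : l * (inner ℂ u v).re ≤ l * (Cz * √√e) := by gcongr
  have h10 : D * √√e ≤ σ := by
    calc D * √√e ≤ D * (σ / D) := by gcongr
      _ = σ := by field_simp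
  have h11 : D * √√e = l * (Cz * √√e) +
      2 * C * (M * Cz * 2 / (1 - a ^ 2) + 2 * l + 22 * Bd) * √√e := by rw [hD]; ring
  have h12 : 1 / (1 - a ^ 2) * (inner ℂ u (S.Φ (qh q) u)).re =
      (inner ℂ u (S.Φ (qh q) u)).re / (1 - a ^ 2) := by ring
  linarith

/-- the nondegenerate case: the gain is `Re ⟨ψ u, u⟩` up to a small error -/
theorem gain_nondeg (hCLT : CLTStatement) (hKER : KERStatement) (hBND : BNDStatement)
    (hNU : NUStatement) :
    ∀ a : ℝ, 1 / 2 ≤ a → a < 1 → ∀ Cz σ : ℝ, 1 ≤ Cz → 0 < σ →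
    ∃ e0 : ℝ, 0 < e0 ∧ ∀ e : ℝ, 0 < e → e < e0 →
    ∀ (H : Type) [NormedAddCommGroup H] [InnerProductSpace ℂ H] [CompleteSpace H] (r : ℝ),
      1 < r → r ≤ (1 + a) / (2 * a) → ∀ (S : Sys a e r H) (q Δ : Hol r) (v : H), QH q →
      Near S.Φ (qh q) (jj q) Δ Cz (Cz * √√e) v → ‖inner ℂ v (S.Φ (qh q) v)‖ ≤ Cz * √e →
      (1 / 2 ≤ ((fn (qh q) 0) ^ 2).re ∧
        ‖inner ℂ v (S.Φ (Ff q a) (S.Φ (qh q) v)) -
          inner ℂ (S.Φ (qh q) v) (S.Φ (psi q a) (S.Φ (qh q) v))‖ ≤ σ) ∨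
      ‖inner ℂ v (S.Φ (Ff q a) (S.Φ (qh q) v))‖ ≤ σ := by
  intro a ha1 ha2 Cz σ hCz hσ
  obtain ⟨Mk, hMk, e1, he1, hKER⟩ := hKER a ha1 ha2
  obtain ⟨Mb, hMb, e2, he2, hBND⟩ := hBND a ha1 ha2
  have ha4 : 0 < 1 - a := by linarith
  have ha3 : 0 < 1 - a ^ 2 := by nlinarith
  set M : ℝ := 1 + Cz + Mk + Mb + 20 / (1 - a) ^ 3 + 6 / ((1 - a) * (1 - a ^ 2)) with hM
  have g1 : 0 < 20 / (1 - a) ^ 3 := by positivity
  have g2 : 0 < 6 / ((1 - a) * (1 - a ^ 2)) := by positivity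
  have hM1 : 1 ≤ M := by rw [hM]; linarith
  obtain ⟨δ, hδ, hCLT⟩ := hCLT M σ hM1 hσ
  -- thresholds
  set D : ℝ := Cz + Mk with hD
  have hD0 : 0 < D := by rw [hD]; linarith
  set K1 : ℝ := δ / D with hK1
  set K2 : ℝ := (σ / M ^ 5) ^ 2 / (2 * (D + D * (M * M) ^ 2)) with hK2
  have hK10 : 0 < K1 := by positivity
  have hK20 : 0 < K2 := by positivity
  obtain ⟨e3, he3, he31, hsm⟩ := small_e (K := min K1 K2) (by positivity)
  refine ⟨min e1 (min e2 e3), by positivity, ?_⟩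
  intro e he hee H _ _ _ r hr1 hr2 S q Δ v hq hnear ht
  have hea : e < e1 := hee.trans_le (min_le_left _ _)
  have heb : e < e2 := hee.trans_le ((min_le_right _ _).trans (min_le_left _ _))
  have hec : e < e3 := hee.trans_le ((min_le_right _ _).trans (min_le_right _ _))
  have hsm := hsm e he hec
  have hsm1 : √√e ≤ K1 := hsm.trans (min_le_left _ _)
  have hsm2 : √√e ≤ K2 := hsm.trans (min_le_right _ _)
  obtain ⟨hs1, hs2, hs3, hs4⟩ := sq_le he (hec.le.trans he31)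
  have hs00 : 0 ≤ √√e := Real.sqrt_nonneg _
  obtain ⟨hρ0, -, hqh, -, hnu0, hnu1, hnu2, hkap, -, hw, hz⟩ := hNU a ha1 ha2 r hr1 hr2 q hq
  have hker := hKER e he hea H r hr1 hr2 S q hq
  obtain ⟨hb1, hb2, hb3⟩ := hBND e he heb H r hr1 hr2 S q hq
  have hkap' : ‖kap q a‖ ≤ M := by
    refine hkap.trans ?_
    have h1 : (nu q a).re ≤ 3 / (1 - a) := (re_le_norm _).trans hnu1
    have h2 : 2 * a * (nu q a).re / (1 - a ^ 2) ≤ 2 * 1 * (3 / (1 - a)) / (1 - a ^ 2) := by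
      gcongr
    have h3 : 2 * 1 * (3 / (1 - a)) / (1 - a ^ 2) = 6 / ((1 - a) * (1 - a ^ 2)) := by
      field_simp; ring
    rw [h3] at h2
    refine h2.trans ?_
    rw [hM]; linarith
  by_cases hb : 1 / 2 ≤ ((fn (qh q) 0) ^ 2).re
  · left
    refine ⟨hb, ?_⟩
    have hDs : D * √√e ≤ δ := by
      calc D * √√e ≤ D * K1 := by gcongr
        _ = δ := by rw [hK1]; field_simp
    have hMk0 : 0 ≤ Mk := by linarith
    have c1 : Near S.Φ (qh q) (jj q) Δ M δ v := by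
      refine near_mono hnear (by rw [hM]; linarith) (le_trans ?_ hDs)
      rw [hD]; nlinarith
    have c2 := kera_mono hker (M' := M) (δ' := δ) hMk0 (by rw [hM]; linarith) (by
      refine le_trans ?_ hDs
      have : Mk * e ≤ Mk * √√e := by
        gcongr
        exact hs2.trans hs1
      rw [hD]; nlinarith)
    have c3 : ∀ N : ℕ, ‖S.Φ (qh q * jj q * (1 - qh q * jj q) ^ N)‖ ≤ M / (N + 1) := fun N =>
      (hb1 N).trans (by
        have : Mb ≤ M := by rw [hM]; linarith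
        gcongr)
    have c4 : ‖inner ℂ v (S.Φ (qh q) v)‖ ≤ δ := by
      refine ht.trans (le_trans ?_ hDs)
      calc Cz * √e ≤ Cz * √√e := by gcongr
        _ ≤ D * √√e := by
          have : Cz ≤ D := by rw [hD]; linarith
          gcongr
    have c5 : ‖(nu q a - 1) / (nu q a + 1)‖ ^ 2 ≤ 1 - 1 / M := by
      refine (hw hb).trans ?_
      have h1 : 20 / (1 - a) ^ 3 ≤ M := by rw [hM]; linarith
      have h2 : 1 / M ≤ (1 - a) ^ 3 / 20 := by
        rw [div_le_div_iff₀ (by linarith) (by norm_num)]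
        rw [div_le_iff₀ (by positivity)] at h1
        linarith
      linarith
    have c6 : nu q a + 1 ≠ 0 := by
      intro h
      have := congrArg Complex.re h
      simp at this
      linarith
    have c7 : ∀ N : ℕ, ‖S.Φ ((1 - 2 * jj q) ^ (2 * N) * Ef q a)‖ ≤ M := fun N =>
      (hb3 hb N).trans (by rw [hM]; linarith)
    exact hCLT H (Hol r) S.Φ (qh q) (qi q) (jj q) (Bf a r) (dsl (qh q ^ 2) a) Δ (Ef q a) a
      (nu q a) _ (kap q a) v c1 c2 c3 c4 hkap' c5 c6 hb2 c7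
  · right
    push Not at hb
    set δ' : ℝ := D * √√e with hδ'
    have hδ0 : 0 ≤ δ' := by positivity
    have hMk0 : 0 ≤ Mk := by linarith
    have c1 : Near S.Φ (qh q) (jj q) Δ M δ' v := by
      refine near_mono hnear (by rw [hM]; linarith) ?_
      rw [hδ', hD]; nlinarith
    have c2 := kera_mono hker (M' := M) (δ' := δ') hMk0 (by rw [hM]; linarith) (by
      have : Mk * e ≤ Mk * √√e := by
        gcongr
        exact hs2.trans hs1
      rw [hδ', hD]; nlinarith)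
    have h := C3N.H26.gain_small (κ := kap q a) hM1 hδ0 c1 c2 hb hkap'
    refine h.trans ?_
    have h1 : 2 * (δ' + δ' * (M * M) ^ 2) ≤ (σ / M ^ 5) ^ 2 := by
      calc 2 * (δ' + δ' * (M * M) ^ 2) = (2 * (D + D * (M * M) ^ 2)) * √√e := by rw [hδ']; ring
        _ ≤ (2 * (D + D * (M * M) ^ 2)) * K2 := by gcongr
        _ = (σ / M ^ 5) ^ 2 := by rw [hK2]; field_simp
    have h2 : √(2 * (δ' + δ' * (M * M) ^ 2)) ≤ σ / M ^ 5 := by
      rw [Real.sqrt_le_left (by positivity)]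
      exact h1
    calc M ^ 5 * √(2 * (δ' + δ' * (M * M) ^ 2)) ≤ M ^ 5 * (σ / M ^ 5) := by gcongr
      _ = σ := by field_simp

theorem gain_st (hP1 : P1Statement) (hCRU : CRUStatement) (hCLT : CLTStatement)
    (hKER : KERStatement) (hBND : BNDStatement) (hPB : PBStatement) (hPA : PAStatement)
    (hNU : NUStatement) : GainStatement := by
  have hPBc := hPB
  obtain ⟨CB, hCB, hPB'⟩ := hPBc
  refine ⟨44 * CB, by positivity, ?_⟩
  intro a ha1 ha2 M Cz σ hM hCz hσ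
  have ha4 : 0 < 1 - a := by linarith
  have ha3 : 0 < 1 - a ^ 2 := by nlinarith
  have ha5 : 1 - a ^ 2 ≤ 1 := by nlinarith
  obtain ⟨e1, he1, h1⟩ := psi_A hPA hCRU hP1 hPB hNU a ha1 ha2 M Cz (σ / 2) hM hCz (by positivity)
  obtain ⟨e2, he2, h2⟩ := gain_nondeg hCLT hKER hBND hNU a ha1 ha2 Cz (σ / 2) hCz (by positivity)
  obtain ⟨e3, he3, hP1⟩ := hP1 a ha1 ha2
  obtain ⟨e4, he4, he41, hsm⟩ := small_e (K := σ * (1 - a ^ 2) / 2 / (4 * M ^ 2 * Cz)) (by positivity)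
  refine ⟨min (min e1 e2) (min e3 e4), by positivity, ?_⟩
  intro e he hee H _ _ _ r hr1 hr2 S q Δ v hq hcer hnear ht hρ hu hv
  have hea : e < e1 := hee.trans_le ((min_le_left _ _).trans (min_le_left _ _))
  have heb : e < e2 := hee.trans_le ((min_le_left _ _).trans (min_le_right _ _))
  have hec : e < e3 := hee.trans_le ((min_le_right _ _).trans (min_le_left _ _))
  have hed : e < e4 := hee.trans_le ((min_le_right _ _).trans (min_le_right _ _))
  have hsm := hsm e he hed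
  obtain ⟨hs1, hs2, hs3, hs4⟩ := sq_le he (hed.le.trans he41)
  have hs00 : 0 ≤ √√e := Real.sqrt_nonneg _
  obtain ⟨hρ0, -⟩ := hNU a ha1 ha2 r hr1 hr2 q hq
  have h1 := h1 e he hea H r hr1 hr2 S q Δ v hq hcer ht hρ hu hv
  have h2 := h2 e he heb H r hr1 hr2 S q Δ v hq hnear ht
  set u := S.Φ (qh q) v with hu'
  have hPge : -(σ * (1 - a ^ 2) / 2) ≤ (inner ℂ u (S.Φ (qh q) u)).re := by
    refine le_trans (neg_le_neg ?_) (P_ge (by linarith) (by linarith) hcer he hρ0 hρ hu)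
    calc 4 * M ^ 2 * Cz * √e ≤ 4 * M ^ 2 * Cz * √√e := by gcongr
      _ ≤ 4 * M ^ 2 * Cz * (σ * (1 - a ^ 2) / 2 / (4 * M ^ 2 * Cz)) := by gcongr
      _ = σ * (1 - a ^ 2) / 2 := by field_simp
  have hPd : -(σ / 2) ≤ (inner ℂ u (S.Φ (qh q) u)).re / (1 - a ^ 2) := by
    rw [le_div_iff₀ ha3]
    calc -(σ / 2) * (1 - a ^ 2) = -(σ * (1 - a ^ 2) / 2) := by ring
      _ ≤ _ := hPge
  have hBd0 : 0 < CB * (1 - a) ^ (-(3 / 2 : ℝ)) := by positivity
  have hpsi : ‖S.Φ (psi q a)‖ ≤ 11 * (CB * (1 - a) ^ (-(3 / 2 : ℝ))) :=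
    hP1 e he hec H r hr1 hr2 S (psi q a) _ (fun z hz' => hPB' a ha1 ha2 r hr1 hr2 q hq z hz')
  have hpsi2 : (inner ℂ u (S.Φ (psi q a) u)).re ≤ 44 * CB * (1 - a) ^ (-(3 / 2 : ℝ)) := by
    refine re_inner_le _ _ _ ?_
    calc ‖u‖ * ‖S.Φ (psi q a) u‖ ≤ 2 * (11 * (CB * (1 - a) ^ (-(3 / 2 : ℝ))) * 2) := by
          gcongr
          exact (ContinuousLinearMap.le_opNorm _ _).trans (by gcongr)
      _ = _ := by ring
  refine ⟨?_, ?_, ?_, norm_Ff S q ha2 hnear.nj hnear.nJ⟩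
  · have : σ * (1 - a ^ 2) / 2 ≤ σ := by nlinarith
    linarith
  · rcases h2 with ⟨-, h2⟩ | h2
    · have h3 := (re_le_norm _).trans h2
      rw [sub_re] at h3
      linarith
    · have h3 := (re_le_norm _).trans h2
      linarith
  · rcases h2 with ⟨-, h2⟩ | h2
    · have h3 := (re_le_norm _).trans h2
      rw [sub_re] at h3
      linarith
    · have h3 := (re_le_norm _).trans h2
      have h4 : 0 < 44 * CB * (1 - a) ^ (-(3 / 2 : ℝ)) := by positivity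
      linarith

end C3N.H15
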