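import Pool.Agent.Lib.MP_c3d375_an.Neg.H15.Ubc3

/-!
# UBC, part 4: the two cases (helper15)
-/

open Complex Metric Set Filter Topology ComplexConjugate

namespace C3N.H15

theorem case1 {s ρ κ Cz C' δ σ g0 t P wr : ℝ} (hs : 0 < s) (hs1 : s ≤ 1) (hρ : 0 < ρ)
    (hρ2 : ρ ≤ Cz * s) (hC' : 0 ≤ C') (hCz : 1 ≤ Cz) (hσ : 0 < σ) (hκ : 0 ≤ κ)
    (h1 : -(4 * C' * s ^ 4) ≤ t + s ^ 2 * g0) (h2 : g0 ≤ κ * P + σ) (h3 : -σ ≤ P)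
    (h4 : s ^ 2 * κ ≤ ρ ^ 2 / 8) (hw : wr = ρ * t + ρ ^ 3 / 8 * P)
    (h5 : σ * (Cz ^ 3 / 8 + Cz) ≤ δ / 2) (h6 : 4 * C' * Cz * s ≤ δ / 2) :
    -(δ * s ^ 3) ≤ wr := by
  have a1 : -(σ * (Cz ^ 3 / 8) * s ^ 3) ≤ ρ * P * (ρ ^ 2 / 8 - s ^ 2 * κ) := by
    have b1 : 0 ≤ ρ ^ 2 / 8 - s ^ 2 * κ := by linarith
    have b2 : ρ ^ 2 / 8 - s ^ 2 * κ ≤ ρ ^ 2 / 8 := by
      have : 0 ≤ s ^ 2 * κ := by positivity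
      linarith
    have b3 : ρ * (-σ) * (ρ ^ 2 / 8) ≤ ρ * P * (ρ ^ 2 / 8 - s ^ 2 * κ) := by
      have c1 : ρ * (-σ) * (ρ ^ 2 / 8 - s ^ 2 * κ) ≤ ρ * P * (ρ ^ 2 / 8 - s ^ 2 * κ) := by
        gcongr
      have c2 : ρ * σ * (ρ ^ 2 / 8 - s ^ 2 * κ) ≤ ρ * σ * (ρ ^ 2 / 8) := by gcongr
      linarith
    have b4 : ρ ^ 3 ≤ (Cz * s) ^ 3 := by gcongr
    have b5 : σ / 8 * ρ ^ 3 ≤ σ / 8 * (Cz * s) ^ 3 := by gcongr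
    calc -(σ * (Cz ^ 3 / 8) * s ^ 3) = -(σ / 8 * (Cz * s) ^ 3) := by ring
      _ ≤ -(σ / 8 * ρ ^ 3) := by linarith
      _ = ρ * (-σ) * (ρ ^ 2 / 8) := by ring
      _ ≤ _ := b3
  have a2 : ρ * (s ^ 2 * g0) ≤ ρ * (s ^ 2 * (κ * P + σ)) := by gcongr
  have a3 : ρ * (-(4 * C' * s ^ 4)) ≤ ρ * (t + s ^ 2 * g0) := by gcongr
  have a4 : ρ * s ^ 2 * σ ≤ Cz * s * s ^ 2 * σ := by gcongr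
  have a5 : ρ * (4 * C' * s ^ 4) ≤ Cz * s * (4 * C' * s ^ 4) := by gcongr
  have a6 : Cz * s * (4 * C' * s ^ 4) ≤ s ^ 3 * (4 * C' * Cz * s) := by
    have : s ^ 5 ≤ s ^ 4 := pow_le_pow_of_le_one hs.le hs1 (by norm_num)
    calc Cz * s * (4 * C' * s ^ 4) = 4 * C' * Cz * s ^ 5 := by ring
      _ ≤ 4 * C' * Cz * s ^ 4 := by gcongr
      _ = _ := by ring
  have a7 : s ^ 3 * (4 * C' * Cz * s) ≤ s ^ 3 * (δ / 2) := by gcongr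
  have a8 : s ^ 3 * (σ * (Cz ^ 3 / 8 + Cz)) ≤ s ^ 3 * (δ / 2) := by gcongr
  rw [hw]
  nlinarith

theorem case2 {s ρ g Y CG Cm C' F M Cz δ σ g0 wr wi : ℝ} (hs : 0 < s) (hs1 : s ≤ 1) (hρ : 0 < ρ)
    (hρ1 : ρ ≤ 3 * s * g ^ 2) (hρ2 : ρ ≤ Cz * s) (hg : 1 ≤ g) (hCG : 0 ≤ CG) (hCm : 0 ≤ Cm)
    (hC' : 0 ≤ C') (hF : 0 ≤ F) (hM : 0 ≤ M) (hCz : 1 ≤ Cz) (hσ : 0 < σ) (hσ1 : σ ≤ 1)
    (h0 : g0 ≤ CG * g ^ 6 + σ) (hY : 6 * (CG + 1 + 4 * Cm) * g ^ 5 ≤ Y) (hwi : Y * s ^ 2 ≤ |wi|)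
    (key : -(ρ * (s ^ 2 * g0) + ρ * (4 * (Cm * (s * g ^ 3) ^ 2 + C' * (s ^ 4 + s ^ 2 * (s * g ^ 3))))
      + ρ ^ 3 / 8 * (s ^ 2 * (F * (2 * M / ρ) * 2))
      + ρ ^ 3 / 8 * ((Cm * (s * g ^ 3) ^ 2 + C' * (s ^ 4 + s ^ 2 * (s * g ^ 3))) * (2 * M / ρ) * 2))
      ≤ wr - s * g ^ 3 / 2 * |wi|)
    (hR : (4 * Cz * C' * (1 + g ^ 3) + Cz ^ 2 * F * M / 2 +
      Cz ^ 2 * M / 2 * (Cm * g ^ 6 + C' * (1 + g ^ 3))) * s ≤ δ) :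
    -(δ * s ^ 3) ≤ wr := by
  have hg0 : 0 < g := by linarith
  -- main terms
  have m1 : s * g ^ 3 / 2 * (6 * (CG + 1 + 4 * Cm) * g ^ 5 * s ^ 2) ≤ s * g ^ 3 / 2 * |wi| := by
    have : 6 * (CG + 1 + 4 * Cm) * g ^ 5 * s ^ 2 ≤ |wi| := le_trans (by gcongr) hwi
    gcongr
  have hg6 : 1 ≤ g ^ 6 := one_le_pow₀ hg
  have m2 : ρ * (s ^ 2 * g0) ≤ 3 * s * g ^ 2 * (s ^ 2 * ((CG + 1) * g ^ 6)) := by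
    have b1 : g0 ≤ (CG + 1) * g ^ 6 := by nlinarith
    calc ρ * (s ^ 2 * g0) ≤ ρ * (s ^ 2 * ((CG + 1) * g ^ 6)) := by gcongr
      _ ≤ 3 * s * g ^ 2 * (s ^ 2 * ((CG + 1) * g ^ 6)) := by gcongr
  have m3 : ρ * (4 * (Cm * (s * g ^ 3) ^ 2)) ≤ 3 * s * g ^ 2 * (4 * (Cm * (s * g ^ 3) ^ 2)) := by
    gcongr
  have s43 : s ^ 4 ≤ s ^ 3 := pow_le_pow_of_le_one hs.le hs1 (by norm_num)
  have s42 : s ^ 4 ≤ s ^ 2 := pow_le_pow_of_le_one hs.le hs1 (by norm_num)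
  have s32 : s ^ 3 ≤ s ^ 2 := pow_le_pow_of_le_one hs.le hs1 (by norm_num)
  -- small terms
  have q1 : ρ * (4 * (C' * (s ^ 4 + s ^ 2 * (s * g ^ 3)))) ≤ 4 * Cz * C' * (1 + g ^ 3) * s ^ 4 := by
    have b1 : s ^ 4 + s ^ 2 * (s * g ^ 3) ≤ s ^ 3 * (1 + g ^ 3) := by nlinarith
    calc ρ * (4 * (C' * (s ^ 4 + s ^ 2 * (s * g ^ 3)))) ≤
        Cz * s * (4 * (C' * (s ^ 3 * (1 + g ^ 3)))) := by gcongr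
      _ = _ := by ring
  have e3 : ρ ^ 3 / 8 * (s ^ 2 * (F * (2 * M / ρ) * 2)) = ρ ^ 2 * (s ^ 2 * F * M / 2) := by
    field_simp; ring
  have q2 : ρ ^ 2 * (s ^ 2 * F * M / 2) ≤ Cz ^ 2 * F * M / 2 * s ^ 4 := by
    calc ρ ^ 2 * (s ^ 2 * F * M / 2) ≤ (Cz * s) ^ 2 * (s ^ 2 * F * M / 2) := by gcongr
      _ = _ := by ring
  have e4 : ρ ^ 3 / 8 * ((Cm * (s * g ^ 3) ^ 2 + C' * (s ^ 4 + s ^ 2 * (s * g ^ 3))) *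
      (2 * M / ρ) * 2) = ρ ^ 2 * (M / 2 * (Cm * (s * g ^ 3) ^ 2 +
        C' * (s ^ 4 + s ^ 2 * (s * g ^ 3)))) := by
    field_simp; ring
  have q3 : ρ ^ 2 * (M / 2 * (Cm * (s * g ^ 3) ^ 2 + C' * (s ^ 4 + s ^ 2 * (s * g ^ 3)))) ≤
      Cz ^ 2 * M / 2 * (Cm * g ^ 6 + C' * (1 + g ^ 3)) * s ^ 4 := by
    have b1 : s ^ 4 + s ^ 2 * (s * g ^ 3) ≤ s ^ 2 * (1 + g ^ 3) := by nlinarith [pow_pos hg0 3]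
    calc ρ ^ 2 * (M / 2 * (Cm * (s * g ^ 3) ^ 2 + C' * (s ^ 4 + s ^ 2 * (s * g ^ 3)))) ≤
        (Cz * s) ^ 2 * (M / 2 * (Cm * (s * g ^ 3) ^ 2 + C' * (s ^ 2 * (1 + g ^ 3)))) := by gcongr
      _ = _ := by ring
  have r1 : s ^ 3 * ((4 * Cz * C' * (1 + g ^ 3) + Cz ^ 2 * F * M / 2 +
      Cz ^ 2 * M / 2 * (Cm * g ^ 6 + C' * (1 + g ^ 3))) * s) ≤ s ^ 3 * δ := by gcongr
  rw [e3, e4] at key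
  have id1 : s * g ^ 3 / 2 * (6 * (CG + 1 + 4 * Cm) * g ^ 5 * s ^ 2) =
      3 * s * g ^ 2 * (s ^ 2 * ((CG + 1) * g ^ 6)) + 3 * s * g ^ 2 * (4 * (Cm * (s * g ^ 3) ^ 2)) := by
    ring
  nlinarith

end C3N.H15
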